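import Pool.Agent.Q99.XF.Stm

set_option autoImplicit false

/-!
# Project XF (helper99), job LV (helper123): the live brackets control all directions
-/

namespace Pool.Agent.Q123.XF

open Finset Filter Topology
open Pool.Agent.Q99.FAL
open Pool.Agent.Q99.XF
open Pool.Agent.Q299.FAL

variable {c d : ℕ}

/-- the steps `g1`, ..., `g4` of `gau_ne` -/
theorem live_ker {X : Net c} {p a : Fin c → Fin 6 → ℝ} {E : Fin d → Fin c → Fin 6 → ℤ}
    {τ : Fin d → ℝ} (hB : Bs X p a E τ) (y : Fin d → ℝ)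
    (g1 : ∀ b i, Lv a b i → XL E y b i = 0) (g2 : ∀ b i, Lv a b i → dn (XL E y b) i = 0) :
    y = 0 := by
  have hp := hB.good
  obtain ⟨ha, hz, -⟩ := hB.top
  have hEL : ∀ j, E j ∈ X.L := by
    intro j
    have := hB.mem (Pi.single j 1)
    rwa [sum_eq_single j (fun i _ hi => by rw [Pi.single_eq_of_ne hi, zero_smul])
      (fun h => absurd (mem_univ _) h), Pi.single_eq_same, one_smul] at this
  have hXL : ∀ τ, XL E τ ∈ X.LR := by
    intro τ
    rw [XL_apply]
    exact X.LR.sum_mem fun j _ => X.LR.smul_mem _ (Submodule.subset_span ⟨_, hEL j, rfl⟩)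
  apply hB.ind
  rw [← XL_apply]
  obtain ⟨x, hx⟩ : ∃ x, x = XL E y := ⟨_, rfl⟩
  have hxm : x ∈ X.LR := by rw [hx]; exact hXL y
  rw [← hx] at g1 g2 ⊢
  have g3 : ∀ b i, a b i = 0 → x b i = 0 := fun b i h =>
    MX.LR_zero (fun δ hδ => hp.zero δ hδ b i ((hz b i).1 h)) x hxm
  have g4 : ∀ b, n1 (x b) = 0 ∧ n2 (x b) = 0 := by
    intro b
    have hs := n12 hp x hxm b
    have hex : ∃ i, a b i ≠ 0 ∧ a b i ≠ 1 / 2 := by
      by_contra hcon
      push Not at hcon
      obtain ⟨e1, e2⟩ := ha.2.2 b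
      have a0 := ha.2.1 b 0
      have a1 := ha.2.1 b 1
      have a2 := ha.2.1 b 2
      have a3 := ha.2.1 b 3
      have a4 := ha.2.1 b 4
      have a5 := ha.2.1 b 5
      unfold n1 at e1
      unfold n2 at e2
      by_cases q1 : p b 1 = 0
      · have q2 : p b 2 ≠ 0 := fun h => hp.s3 b ⟨q1, h⟩
        have q5 : p b 5 ≠ 0 := fun h => q2 ((hp.s2 b).2 h)
        have r2 := hcon 2 (fun h => q2 ((hz b 2).1 h))
        have r5 := hcon 5 (fun h => q5 ((hz b 5).1 h))
        have z0 : p b 0 = 0 := (hz b 0).1 (by linarith)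
        have z3 : p b 3 = 0 := (hz b 3).1 (by linarith)
        exact hp.s4 b ⟨z0, z3, Or.inl q1⟩
      · have q4 : p b 4 ≠ 0 := fun h => q1 ((hp.s1 b).2 h)
        have r1 := hcon 1 (fun h => q1 ((hz b 1).1 h))
        have r4 := hcon 4 (fun h => q4 ((hz b 4).1 h))
        have z0 : p b 0 = 0 := (hz b 0).1 (by linarith)
        have z3 : p b 3 = 0 := (hz b 3).1 (by linarith)
        have z2 : p b 2 = 0 := (hz b 2).1 (by linarith)
        exact hp.s4 b ⟨z0, z3, Or.inr z2⟩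
    obtain ⟨i, hi1, hi2⟩ := hex
    have h7 := g2 b i ⟨hi1, hi2⟩
    unfold dn at h7
    split_ifs at h7
    · exact ⟨by linarith, h7⟩
    · exact ⟨h7, by linarith⟩
  funext b i
  by_cases hi0 : a b i = 0
  · exact g3 b i hi0
  by_cases hi1 : a b i = 1 / 2
  swap
  · exact g1 b i ⟨hi0, hi1⟩
  obtain ⟨e1, e2⟩ := ha.2.2 b
  obtain ⟨k1, k2⟩ := g4 b
  have a0 := ha.2.1 b 0
  have a1 := ha.2.1 b 1
  have a2 := ha.2.1 b 2
  have a3 := ha.2.1 b 3
  have a4 := ha.2.1 b 4
  have a5 := ha.2.1 b 5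
  unfold n1 at e1 k1
  unfold n2 at e2 k2
  rw [Pi.zero_apply, Pi.zero_apply]
  fin_cases i <;> simp only [Fin.zero_eta, Fin.mk_one, Fin.reduceFinMk] at hi1 ⊢
  · have z1 := g3 b 1 (by linarith)
    have z2 := g3 b 2 (by linarith)
    linarith
  · have z1 := g3 b 0 (by linarith)
    have z2 := g3 b 2 (by linarith)
    linarith
  · have z1 := g3 b 0 (by linarith)
    have z2 := g3 b 1 (by linarith)
    linarith
  · have z1 := g3 b 4 (by linarith)
    have z2 := g3 b 5 (by linarith)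
    linarith
  · have z1 := g3 b 3 (by linarith)
    have z2 := g3 b 5 (by linarith)
    linarith
  · have z1 := g3 b 3 (by linarith)
    have z2 := g3 b 4 (by linarith)
    linarith

open Classical in
/-- the values of the live brackets, as a linear map -/
noncomputable def TL (a : Fin c → Fin 6 → ℝ) (E : Fin d → Fin c → Fin 6 → ℤ) :
    (Fin d → ℝ) →ₗ[ℝ] (Fin c → Fin 6 → ℝ × ℝ) :=
  LinearMap.pi fun b => LinearMap.pi fun i =>
    if Lv a b i then (fa E b i).prod (fa E b i + fb E b i) else 0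

theorem TL_live {a : Fin c → Fin 6 → ℝ} {E : Fin d → Fin c → Fin 6 → ℤ} {b : Fin c} {i : Fin 6}
    (h : Lv a b i) (y : Fin d → ℝ) : TL a E y b i = (XL E y b i, dn (XL E y b) i) := by
  unfold TL
  rw [LinearMap.pi_apply, LinearMap.pi_apply, if_pos h, LinearMap.prod_apply]
  show ((fa E b i) y, (fa E b i + fb E b i) y) = _
  rw [LinearMap.add_apply]
  show (XL E y b i, XL E y b i + (dn (XL E y b) i - XL E y b i)) = _
  rw [add_sub_cancel]

theorem TL_dead {a : Fin c → Fin 6 → ℝ} {E : Fin d → Fin c → Fin 6 → ℤ} {b : Fin c} {i : Fin 6}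
    (h : ¬ Lv a b i) (y : Fin d → ℝ) : TL a E y b i = 0 := by
  unfold TL
  rw [LinearMap.pi_apply, LinearMap.pi_apply, if_neg h, LinearMap.zero_apply]

/-- JOB LV -/
theorem task_LV : S_LV := by
  classical
  intro c d X p a E τ hB
  have hker : LinearMap.ker (TL a E) = ⊥ := by
    rw [LinearMap.ker_eq_bot']
    intro y hy
    refine live_ker hB y (fun b i h => ?_) (fun b i h => ?_)
    · have h1 := TL_live (E := E) h y
      rw [hy, Pi.zero_apply, Pi.zero_apply] at h1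
      exact (congrArg Prod.fst h1).symm
    · have h1 := TL_live (E := E) h y
      rw [hy, Pi.zero_apply, Pi.zero_apply] at h1
      exact (congrArg Prod.snd h1).symm
  obtain ⟨K, hK, hA⟩ := LinearMap.exists_antilipschitzWith (TL a E) hker
  refine ⟨d * (K : ℝ) ^ 2 + 1, by positivity, fun y => ?_⟩
  have h1 : ‖y‖ ≤ K * ‖TL a E y‖ := by
    have := hA.le_mul_norm_sub y 0
    rwa [map_zero, add_zero, add_zero, norm_neg, norm_neg] at this
  obtain ⟨S, hSdef⟩ : ∃ S : ℝ, S = ∑ b, ∑ i,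
      (if Lv a b i then XL E y b i ^ 2 + dn (XL E y b) i ^ 2 else 0) := ⟨_, rfl⟩
  have hterm : ∀ b i, 0 ≤ (if Lv a b i then XL E y b i ^ 2 + dn (XL E y b) i ^ 2 else 0) := by
    intro b i
    split_ifs
    · positivity
    · exact le_rfl
  have hS : 0 ≤ S := by
    rw [hSdef]
    exact sum_nonneg fun b _ => sum_nonneg fun i _ => hterm b i
  have h2 : ‖TL a E y‖ ^ 2 ≤ S := by
    have h3 : ‖TL a E y‖ ≤ √S := by
      rw [pi_norm_le_iff_of_nonneg (Real.sqrt_nonneg _)]
      intro b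
      rw [pi_norm_le_iff_of_nonneg (Real.sqrt_nonneg _)]
      intro i
      by_cases h : Lv a b i
      · rw [TL_live h]
        have h5 : XL E y b i ^ 2 + dn (XL E y b) i ^ 2 ≤ S := by
          rw [hSdef]
          have h6 : XL E y b i ^ 2 + dn (XL E y b) i ^ 2 =
              (if Lv a b i then XL E y b i ^ 2 + dn (XL E y b) i ^ 2 else 0) := (if_pos h).symm
          rw [h6]
          refine le_trans ?_ (single_le_sum (f := fun b => ∑ i,
            (if Lv a b i then XL E y b i ^ 2 + dn (XL E y b) i ^ 2 else 0))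
            (fun b _ => sum_nonneg fun i _ => hterm b i) (mem_univ b))
          exact single_le_sum (f := fun i =>
            (if Lv a b i then XL E y b i ^ 2 + dn (XL E y b) i ^ 2 else 0))
            (fun i _ => hterm b i) (mem_univ i)
        rw [Prod.norm_mk, Real.norm_eq_abs, Real.norm_eq_abs]
        refine max_le (Real.abs_le_sqrt ?_) (Real.abs_le_sqrt ?_)
        · linarith [sq_nonneg (dn (XL E y b) i)]
        · linarith [sq_nonneg (XL E y b i)]
      · rw [TL_dead h, norm_zero]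
        exact Real.sqrt_nonneg _
    calc ‖TL a E y‖ ^ 2 ≤ (√S) ^ 2 := pow_le_pow_left₀ (norm_nonneg _) h3 2
      _ = _ := Real.sq_sqrt hS
  have h4 : ∑ j, y j ^ 2 ≤ d * ‖y‖ ^ 2 := by
    calc ∑ j, y j ^ 2 ≤ ∑ _j : Fin d, ‖y‖ ^ 2 := by
          refine sum_le_sum fun j _ => ?_
          rw [← sq_abs]
          exact pow_le_pow_left₀ (abs_nonneg _) (norm_le_pi_norm y j) 2
      _ = d * ‖y‖ ^ 2 := by
          rw [sum_const, card_univ, Fintype.card_fin, nsmul_eq_mul]
  have h5 : ‖y‖ ^ 2 ≤ (K : ℝ) ^ 2 * ‖TL a E y‖ ^ 2 := by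
    rw [← mul_pow]
    exact pow_le_pow_left₀ (norm_nonneg _) h1 2
  have hfin : ∑ j, y j ^ 2 ≤ (d * (K : ℝ) ^ 2 + 1) * S := by
    calc ∑ j, y j ^ 2 ≤ d * ‖y‖ ^ 2 := h4
      _ ≤ d * ((K : ℝ) ^ 2 * ‖TL a E y‖ ^ 2) := mul_le_mul_of_nonneg_left h5 (Nat.cast_nonneg _)
      _ = (d * (K : ℝ) ^ 2) * ‖TL a E y‖ ^ 2 := by ring
      _ ≤ (d * (K : ℝ) ^ 2) * S := mul_le_mul_of_nonneg_left h2 (by positivity)
      _ ≤ (d * (K : ℝ) ^ 2 + 1) * S := mul_le_mul_of_nonneg_right (by linarith) hS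
  rw [hSdef] at hfin
  convert hfin using 6

end Pool.Agent.Q123.XF
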