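import Pool.Agent.Q99.XF.Stm
import Pool.Agent.Q287.HT.LTH
import Pool.Agent.Q208.KN.LC

set_option autoImplicit false

/-!
# Project XF (helper99), job QA (helper123): the exponent is analytic, with a critical point
-/

namespace Pool.Agent.Q123.XF

open Finset Filter Topology
open Pool.Agent.Q99.KN (LC bb St S_LC)
open Pool.Agent.Q99.HT (LT)
open Pool.Agent.Q99.FAL
open Pool.Agent.Q99.XF
open Pool.Agent.Q299.FAL
open Pool.Agent.Q287.HT (St_open real_St bb_real LT_cen)

/-- a linear form -/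
noncomputable def lin {d : ℕ} (k : Fin d → ℂ) : (Fin d → ℂ) →L[ℂ] ℂ :=
  ∑ j, k j • (ContinuousLinearMap.proj j : (Fin d → ℂ) →L[ℂ] ℂ)

theorem lin_apply {d : ℕ} (k u : Fin d → ℂ) : lin k u = ∑ j, u j * k j := by
  unfold lin
  rw [ContinuousLinearMap.sum_apply]
  refine sum_congr rfl fun j _ => ?_
  rw [ContinuousLinearMap.smul_apply, ContinuousLinearMap.proj_apply, smul_eq_mul, mul_comm]

theorem gT_val {x : ℝ} (h0 : 0 < x) (h1 : x < 1 / 2) (a b : ℂ) :
    bb (1 / 2) * a - bb (1 / 2 - x) * (a - b) - bb x * b =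
      -(((Real.log (Real.tan (Real.pi * x)) : ℝ) : ℂ) * b +
        ((Real.log (Real.cos (Real.pi * x)) : ℝ) : ℂ) * a) := by
  have hpi := Real.pi_pos
  have v1 := bb_real (x := 1 / 2) (by norm_num) (by norm_num)
  have v2 := bb_real (x := 1 / 2 - x) (by linarith) (by linarith)
  have v3 := bb_real (x := x) h0 (by linarith)
  rw [show Real.pi * (1 / 2) = Real.pi / 2 by ring, Real.sin_pi_div_two, mul_one] at v1
  rw [show Real.pi * (1 / 2 - x) = Real.pi / 2 - Real.pi * x by ring, Real.sin_pi_div_two_sub] at v2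
  have hs : 0 < Real.sin (Real.pi * x) :=
    Real.sin_pos_of_pos_of_lt_pi (by nlinarith) (by nlinarith)
  have hc : 0 < Real.cos (Real.pi * x) :=
    Real.cos_pos_of_mem_Ioo ⟨by nlinarith, by nlinarith⟩
  rw [Real.log_mul two_ne_zero hc.ne'] at v2
  rw [Real.log_mul two_ne_zero hs.ne'] at v3
  rw [Real.tan_eq_sin_div_cos, Real.log_div hs.ne' hc.ne']
  have c1 : ((1 / 2 : ℝ) : ℂ) = 1 / 2 := by push_cast; rfl
  have c2 : ((1 / 2 - x : ℝ) : ℂ) = 1 / 2 - x := by push_cast; rfl
  rw [c1] at v1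
  rw [c2] at v2
  rw [v1, v2, v3]
  generalize Real.log 2 = l2
  generalize Real.log (Real.sin (Real.pi * x)) = l3
  generalize Real.log (Real.cos (Real.pi * x)) = l4
  push_cast
  ring

theorem LC_an (hLC : S_LC) {z : ℂ} (hz : z ∈ St) : AnalyticAt ℂ LC z :=
  (DifferentiableOn.analyticOnNhd
    (fun x hx => (hLC.1 x hx).differentiableAt.differentiableWithinAt) St_open) z hz

theorem dn_toR {c d : ℕ} (E : Fin d → Fin c → Fin 6 → ℤ) (j : Fin d) (b : Fin c) (i : Fin 6) :
    dn (toR (E j) b) i = ((dn (E j b) i : ℤ) : ℝ) := by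
  unfold dn toR n1 n2
  split_ifs <;> push_cast <;> rfl

variable {c d : ℕ}

theorem nu_eq (E : Fin d → Fin c → Fin 6 → ℤ) (b : Fin c) (i : Fin 6) :
    nu' E b i = fun u => 1 / 2 + lin (fun j => ((dn (E j b) i : ℤ) : ℂ)) u := by
  funext u
  rw [lin_apply]
  rfl

theorem xi_eq (a : Fin c → Fin 6 → ℝ) (E : Fin d → Fin c → Fin 6 → ℤ) (b : Fin c) (i : Fin 6) :
    xi a E b i = fun u => (a b i : ℂ) + lin (fun j => ((E j b i : ℤ) : ℂ)) u := by
  funext u
  rw [lin_apply]
  rfl

theorem ze_eq (E : Fin d → Fin c → Fin 6 → ℤ) (b : Fin c) :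
    ze E b = fun u => lin (fun j => ((n1 (E j b) - n2 (E j b) : ℤ) : ℂ)) u := by
  funext u
  rw [lin_apply]
  rfl

theorem half_St : (1 / 2 : ℂ) ∈ St := by
  have := real_St (x := 1 / 2) (by norm_num) (by norm_num)
  push_cast at this
  exact this

theorem sub_St {x : ℝ} (h0 : 0 < x) (h1 : x < 1 / 2) : (1 / 2 - x : ℂ) ∈ St := by
  have := real_St (x := 1 / 2 - x) (by linarith) (by linarith)
  push_cast at this
  exact this

/-- one bracket: analytic -/
theorem LT_an (hLC : S_LC) {x : ℝ} (h0 : 0 < x) (h1 : x < 1 / 2) {f g : (Fin d → ℂ) → ℂ}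
    (hf : AnalyticAt ℂ f 0) (hg : AnalyticAt ℂ g 0) (f0 : f 0 = 1 / 2) (g0 : g 0 = x) :
    AnalyticAt ℂ (fun u => LT (f u) (g u)) 0 := by
  unfold Pool.Agent.Q99.HT.LT
  have e1 : AnalyticAt ℂ (fun u => LC (f u)) 0 :=
    AnalyticAt.comp_of_eq' (LC_an hLC half_St) hf f0
  have e2 : AnalyticAt ℂ (fun u => LC (f u - g u)) 0 :=
    AnalyticAt.comp_of_eq' (LC_an hLC (sub_St h0 h1)) (hf.sub hg) (by
      show f 0 - g 0 = _
      rw [f0, g0])
  have e3 : AnalyticAt ℂ (fun u => LC (g u)) 0 :=
    AnalyticAt.comp_of_eq' (LC_an hLC (real_St h0 (by linarith))) hg g0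
  exact (e1.sub e2).sub e3

/-- one bracket: the derivative -/
theorem LT_fd (hLC : S_LC) {x : ℝ} (h0 : 0 < x) (h1 : x < 1 / 2) {f g : (Fin d → ℂ) → ℂ}
    {f' g' : (Fin d → ℂ) →L[ℂ] ℂ}
    (hf : HasFDerivAt f f' 0) (hg : HasFDerivAt g g' 0) (f0 : f 0 = 1 / 2) (g0 : g 0 = x) :
    HasFDerivAt (fun u => LT (f u) (g u))
      (bb (1 / 2) • f' - bb (1 / 2 - x) • (f' - g') - bb x • g') 0 := by
  unfold Pool.Agent.Q99.HT.LT
  have e1 : HasFDerivAt (fun u => LC (f u)) (bb (1 / 2) • f') 0 := by
    have h := hLC.1 _ half_St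
    rw [← f0] at h
    have := h.comp_hasFDerivAt (0 : Fin d → ℂ) hf
    rw [f0] at this
    exact this
  have e2 : HasFDerivAt (fun u => LC (f u - g u)) (bb (1 / 2 - x) • (f' - g')) 0 := by
    have h := hLC.1 _ (sub_St h0 h1)
    have hv : (f - g) 0 = 1 / 2 - x := by rw [Pi.sub_apply, f0, g0]
    rw [← hv] at h
    have := h.comp_hasFDerivAt (0 : Fin d → ℂ) (hf.sub hg)
    rw [hv] at this
    exact this
  have e3 : HasFDerivAt (fun u => LC (g u)) (bb x • g') 0 := by
    have h := hLC.1 _ (real_St h0 (by linarith))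
    rw [← g0] at h
    have := h.comp_hasFDerivAt (0 : Fin d → ℂ) hg
    rw [g0] at this
    exact this
  exact (e1.sub e2).sub e3

/-- JOB QA -/
theorem task_QA : S_QA := by
  classical
  intro c d X p a E τ w hB
  have hLC : S_LC := Pool.Agent.Q208.KN.task_LC
  obtain ⟨ha, hz, hmax⟩ := hB.top
  have hlt : ∀ b i, Lv a b i → 0 < a b i ∧ a b i < 1 / 2 := fun b i h =>
    ⟨lt_of_le_of_ne (ha.2.1 _ _) (Ne.symm h.1), lt_of_le_of_ne (MX.ang_le ha _ _) h.2⟩
  have anu : ∀ b i, AnalyticAt ℂ (nu' E b i) 0 := by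
    intro b i
    rw [nu_eq]
    exact analyticAt_const.add (ContinuousLinearMap.analyticAt _ _)
  have axi : ∀ b i, AnalyticAt ℂ (xi a E b i) 0 := by
    intro b i
    rw [xi_eq]
    exact analyticAt_const.add (ContinuousLinearMap.analyticAt _ _)
  have aze : ∀ b, AnalyticAt ℂ (ze E b) 0 := by
    intro b
    rw [ze_eq]
    exact ContinuousLinearMap.analyticAt _ _
  have n0 : ∀ b i, nu' E b i 0 = 1 / 2 := by
    intro b i
    rw [nu_eq]
    simp only [map_zero, add_zero]
  have x0 : ∀ b i, xi a E b i 0 = a b i := by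
    intro b i
    rw [xi_eq]
    simp only [map_zero, add_zero]
  have z0 : ∀ b, ze E b 0 = 0 := by
    intro b
    rw [ze_eq]
    simp only [map_zero]
  have hq : AnalyticAt ℂ (qq w a E) 0 := by
    have e : qq w a E = fun u => ∑ b, ∑ i, (if Lv a b i then
        LT (nu' E b i u) (xi a E b i u) - (hh (a b i) : ℂ) else 0) +
        ∑ b, Complex.I * Real.pi * w b / 4 * ze E b u ^ 2 := by
      funext u
      unfold qq
      congr
    rw [e]
    refine AnalyticAt.add (Finset.analyticAt_fun_sum _ fun b _ =>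
      Finset.analyticAt_fun_sum _ fun i _ => ?_)
      (Finset.analyticAt_fun_sum _ fun b _ => analyticAt_const.mul ((aze b).pow 2))
    by_cases h : Lv a b i
    · simp only [if_pos h]
      exact (LT_an hLC (hlt b i h).1 (hlt b i h).2 (anu b i) (axi b i) (n0 b i) (x0 b i)).sub
        analyticAt_const
    · simp only [if_neg h]
      exact analyticAt_const
  obtain ⟨R, hR, hball⟩ := Metric.eventually_nhds_iff_ball.1 hq.eventually_analyticAt
  refine ⟨R, hR, fun u hu => hball u hu, ?_, ?_⟩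
  · unfold qq
    have s1 : ∑ b, ∑ i, (if Lv a b i then
        LT (nu' E b i 0) (xi a E b i 0) - (hh (a b i) : ℂ) else 0) = 0 := by
      refine sum_eq_zero fun b _ => sum_eq_zero fun i _ => ?_
      split_ifs with h
      · rw [n0, x0, LT_cen hLC (hlt b i h).1 (hlt b i h).2, sub_self]
      · rfl
    have s2 : ∑ b, Complex.I * Real.pi * w b / 4 * ze E b 0 ^ 2 = 0 := by
      refine sum_eq_zero fun b _ => ?_
      rw [z0]
      ring
    rw [s2, add_zero]
    convert s1
  · apply HasFDerivAt.fderiv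
    have e : qq w a E = fun u => ∑ b, ∑ i, (if Lv a b i then
        LT (nu' E b i u) (xi a E b i u) - (hh (a b i) : ℂ) else 0) +
        ∑ b, Complex.I * Real.pi * w b / 4 * ze E b u ^ 2 := by
      funext u
      unfold qq
      congr
    rw [e]
    obtain ⟨ln, hln⟩ : ∃ ln : Fin c → Fin 6 → (Fin d → ℂ) →L[ℂ] ℂ, ln = fun b i =>
      lin (fun j => ((dn (E j b) i : ℤ) : ℂ)) := ⟨_, rfl⟩
    obtain ⟨lx, hlx⟩ : ∃ lx : Fin c → Fin 6 → (Fin d → ℂ) →L[ℂ] ℂ, lx = fun b i =>
      lin (fun j => ((E j b i : ℤ) : ℂ)) := ⟨_, rfl⟩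
    have dnu : ∀ b i, HasFDerivAt (nu' E b i) (ln b i) 0 := by
      intro b i
      rw [nu_eq, hln]
      exact (ContinuousLinearMap.hasFDerivAt _).const_add _
    have dxi : ∀ b i, HasFDerivAt (xi a E b i) (lx b i) 0 := by
      intro b i
      rw [xi_eq, hlx]
      exact (ContinuousLinearMap.hasFDerivAt _).const_add _
    have dze : ∀ b, HasFDerivAt (fun u => Complex.I * Real.pi * w b / 4 * ze E b u ^ 2)
        (0 : (Fin d → ℂ) →L[ℂ] ℂ) 0 := by
      intro b
      have h1 : HasFDerivAt (ze E b) (lin (fun j => ((n1 (E j b) - n2 (E j b) : ℤ) : ℂ))) 0 := by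
        rw [ze_eq]
        exact ContinuousLinearMap.hasFDerivAt _
      have h2 : HasFDerivAt (fun u => ze E b u * ze E b u) _ 0 := h1.mul h1
      have h3 := h2.const_mul (Complex.I * Real.pi * w b / 4)
      have h4 : (fun u => Complex.I * Real.pi * w b / 4 * ze E b u ^ 2) =
          fun u => Complex.I * Real.pi * w b / 4 * (ze E b u * ze E b u) := by
        funext u
        rw [sq]
      rw [h4]
      refine h3.congr_fderiv ?_
      rw [z0 b]
      ext
      simp
    have dbr : ∀ b i, HasFDerivAt (fun u => if Lv a b i then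
        LT (nu' E b i u) (xi a E b i u) - (hh (a b i) : ℂ) else 0)
        (if Lv a b i then bb (1 / 2) • ln b i - bb (1 / 2 - a b i) • (ln b i - lx b i) -
          bb (a b i) • lx b i else 0) 0 := by
      intro b i
      by_cases h : Lv a b i
      · simp only [if_pos h]
        exact (LT_fd hLC (hlt b i h).1 (hlt b i h).2 (dnu b i) (dxi b i) (n0 b i)
          (x0 b i)).sub_const _
      · simp only [if_neg h]
        exact hasFDerivAt_const _ _
    have htot := (HasFDerivAt.fun_sum (u := (univ : Finset (Fin c))) fun b _ =>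
      HasFDerivAt.fun_sum (u := (univ : Finset (Fin 6))) fun i _ => dbr b i).add
      (HasFDerivAt.fun_sum (u := (univ : Finset (Fin c))) fun b _ => dze b)
    refine htot.congr_fderiv ?_
    rw [sum_const_zero, add_zero]
    have hEL : ∀ j, E j ∈ X.L := by
      intro j
      have := hB.mem (Pi.single j 1)
      rwa [sum_eq_single j (fun i _ hi => by rw [Pi.single_eq_of_ne hi, zero_smul])
        (fun h => absurd (mem_univ _) h), Pi.single_eq_same, one_smul] at this
    have hCR : ∀ j, ∑ b, ∑ i, (Real.log (Real.tan (Real.pi * a b i)) * toR (E j) b i +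
        Real.log (Real.cos (Real.pi * a b i)) * dn (toR (E j) b) i) = 0 := fun j =>
      task_CR c X p hB.good a ha hz hmax (toR (E j)) (Submodule.subset_span ⟨_, hEL j, rfl⟩)
    refine ContinuousLinearMap.ext fun u => ?_
    have key : ∀ b i, (if Lv a b i then bb (1 / 2) • ln b i -
        bb (1 / 2 - a b i) • (ln b i - lx b i) - bb (a b i) • lx b i else 0 :
          (Fin d → ℂ) →L[ℂ] ℂ) u = -∑ j, u j *
        ((Real.log (Real.tan (Real.pi * a b i)) * toR (E j) b i +
        Real.log (Real.cos (Real.pi * a b i)) * dn (toR (E j) b) i : ℝ) : ℂ) := by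
      intro b i
      have h1 : ∑ j, u j * ((Real.log (Real.tan (Real.pi * a b i)) * toR (E j) b i +
          Real.log (Real.cos (Real.pi * a b i)) * dn (toR (E j) b) i : ℝ) : ℂ) =
          ((Real.log (Real.tan (Real.pi * a b i)) : ℝ) : ℂ) * lx b i u +
            ((Real.log (Real.cos (Real.pi * a b i)) : ℝ) : ℂ) * ln b i u := by
        rw [hlx, hln]
        simp only
        rw [lin_apply, lin_apply, mul_sum, mul_sum, ← sum_add_distrib]
        refine sum_congr rfl fun j _ => ?_
        rw [dn_toR]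
        have h2 : toR (E j) b i = ((E j b i : ℤ) : ℝ) := rfl
        rw [h2]
        generalize Real.log (Real.tan (Real.pi * a b i)) = l1
        generalize Real.log (Real.cos (Real.pi * a b i)) = l2
        push_cast
        ring
      rw [h1]
      by_cases h : Lv a b i
      · rw [if_pos h, ← gT_val (hlt b i h).1 (hlt b i h).2]
        rfl
      · rw [if_neg h]
        have h3 : a b i = 0 ∨ a b i = 1 / 2 := by
          unfold Lv at h
          tauto
        have h4 : Real.log (Real.tan (Real.pi * a b i)) = 0 := by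
          rw [(cot_zero' h3).2, Real.log_zero]
        have h5 : Real.log (Real.cos (Real.pi * a b i)) = 0 := by
          rcases h3 with h3 | h3
          · rw [h3, mul_zero, Real.cos_zero, Real.log_one]
          · rw [h3, show Real.pi * (1 / 2) = Real.pi / 2 by ring, Real.cos_pi_div_two,
              Real.log_zero]
        rw [h4, h5]
        simp
    have hsum : (∑ b, ∑ i, (if Lv a b i then bb (1 / 2) • ln b i -
        bb (1 / 2 - a b i) • (ln b i - lx b i) - bb (a b i) • lx b i else 0 :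
          (Fin d → ℂ) →L[ℂ] ℂ)) u = 0 := by
      rw [ContinuousLinearMap.sum_apply]
      have h1 : ∀ b : Fin c, (∑ i, (if Lv a b i then bb (1 / 2) • ln b i -
        bb (1 / 2 - a b i) • (ln b i - lx b i) - bb (a b i) • lx b i else 0 :
          (Fin d → ℂ) →L[ℂ] ℂ)) u = ∑ j, ∑ i, -(u j *
        ((Real.log (Real.tan (Real.pi * a b i)) * toR (E j) b i +
        Real.log (Real.cos (Real.pi * a b i)) * dn (toR (E j) b) i : ℝ) : ℂ)) := by
        intro b
        rw [ContinuousLinearMap.sum_apply, sum_congr rfl fun i _ => key b i, sum_comm]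
        refine sum_congr rfl fun i _ => ?_
        rw [sum_neg_distrib]
      rw [sum_congr rfl fun b _ => h1 b, sum_comm]
      refine sum_eq_zero fun j _ => ?_
      simp_rw [sum_neg_distrib, ← mul_sum]
      have h2 := hCR j
      have h3 : ∑ b, ∑ i, (((Real.log (Real.tan (Real.pi * a b i)) * toR (E j) b i +
        Real.log (Real.cos (Real.pi * a b i)) * dn (toR (E j) b) i : ℝ) : ℂ)) = 0 := by
        rw [← Complex.ofReal_zero, ← h2]
        push_cast
        rfl
      rw [h3, mul_zero, neg_zero]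
    rw [hsum]
    rfl

end Pool.Agent.Q123.XF
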